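import Pool.Agent.H11.NZ.Targets
import Pool.Agent.H74.NY.I3b

set_option autoImplicit false

namespace Pool.Agent.H5.NZ.JN

open Pool.Agent.H11.NY Pool.Agent.H11.NZ
open Pool.Agent.H74.NY.I3b (coprime_centralises exists_O Hyp)

section

variable {H : Type} [Group H] [Finite H]

/-- the centralizer of the normal subgroup `O` in the normal subgroup `J` -/
theorem centr_normal {J O : Subgroup H} (hJ : J.Normal) (hO : O.Normal) :
    (J ⊓ Subgroup.centralizer (O : Set H)).Normal := by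
  constructor
  rintro x ⟨hx1, hx2⟩ g
  refine Subgroup.mem_inf.2 ⟨hJ.conj_mem x hx1 g, ?_⟩
  have hx2' := Subgroup.mem_centralizer_iff.1 hx2
  rw [Subgroup.mem_centralizer_iff]
  intro y hy
  have h1 := hx2' (g⁻¹ * y * g) (by
    have := hO.conj_mem y hy g⁻¹
    simpa using this)
  have h2 : g * (g⁻¹ * y * g * x) * g⁻¹ = g * (x * (g⁻¹ * y * g)) * g⁻¹ := by rw [h1]
  calc y * (g * x * g⁻¹) = g * (g⁻¹ * y * g * x) * g⁻¹ := by group
    _ = g * (x * (g⁻¹ * y * g)) * g⁻¹ := h2
    _ = g * x * g⁻¹ * y := by group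

theorem solvable_of_pow {J C : Subgroup H} (hC : C.Normal) (hCJ : C ≤ J)
    (hCs : Group.IsSolvable C) {s : ℕ} (hs : s.Prime)
    (h : ∀ x ∈ J, ∃ k : ℕ, x ^ s ^ k ∈ C) : Group.IsSolvable J := by
  have : Fact s.Prime := ⟨hs⟩
  have hn : (C.subgroupOf J).Normal := hC.subgroupOf J
  have hp : IsPGroup s (J ⧸ C.subgroupOf J) := by
    intro z
    induction z using QuotientGroup.induction_on with
    | H z =>
      obtain ⟨k, hk⟩ := h z z.2
      refine ⟨k, ?_⟩
      rw [← QuotientGroup.mk_pow, QuotientGroup.eq_one_iff, Subgroup.mem_subgroupOf]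
      simpa using hk
  have : Group.IsNilpotent (J ⧸ C.subgroupOf J) := hp.isNilpotent
  have : Group.IsSolvable (J ⧸ C.subgroupOf J) := inferInstance
  have : Group.IsSolvable (C.subgroupOf J) :=
    Group.isSolvable_of_isSolvable_injective (f := (Subgroup.subgroupOfEquivOfLe hCJ).toMonoidHom)
      (Subgroup.subgroupOfEquivOfLe hCJ).injective
  exact Group.isSolvable_of_ker_le_range (C.subgroupOf J).subtype
    (QuotientGroup.mk' (C.subgroupOf J)) (by simp)

theorem main {J : Subgroup H} (hI3b : T_I3b) (hJ : J.Normal) (hyp : Hyp J)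
    (hnn : ¬ Group.IsNilpotent J) :
    ∃ J₁ B₁ : Subgroup H, J₁.Normal ∧ B₁.Normal ∧ B₁ < J₁ ∧
      J₁ ≤ J ∧ ⁅J₁, J₁⁆ = J₁ ∧ (∀ x ∈ B₁, ∀ y ∈ J₁, x * y = y * x) ∧
      ∀ M : Subgroup H, M.Normal → B₁ ≤ M → M ≤ J₁ → M = B₁ ∨ M = J₁ := by
  classical
  obtain ⟨J₁, ⟨hJ₁n, hJ₁J, hJ₁nn⟩, hmin⟩ := (Set.toFinite {A : Subgroup H | A.Normal ∧ A ≤ J ∧
    ¬ Group.IsNilpotent A}).exists_minimal ⟨J, hJ, le_rfl, hnn⟩
  have hmin' : ∀ A : Subgroup H, A.Normal → A < J₁ → Group.IsNilpotent A := by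
    intro A hA hlt
    by_contra hc
    exact hlt.not_ge (hmin ⟨hA, hlt.le.trans hJ₁J, hc⟩ hlt.le)
  have hyp₁ : Hyp J₁ := by
    intro l hl A B hA hB hBA hAJ hp hch y hy x hx
    exact hyp l hl A B hA hB hBA (hAJ.trans hJ₁J) hp hch y (hJ₁J hy) x hx
  have hns : ¬ Group.IsSolvable J₁ := by
    intro hs
    exact hJ₁nn (hI3b H J₁ hJ₁n hs hyp₁)
  have hperf : ⁅J₁, J₁⁆ = J₁ := by
    by_contra hne
    have hCn : (⁅J₁, J₁⁆ : Subgroup H).Normal := Subgroup.commutator_normal J₁ J₁
    have hlt : ⁅J₁, J₁⁆ < J₁ := lt_of_le_of_ne (Subgroup.commutator_le_left J₁ J₁) hne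
    have := hmin' _ hCn hlt
    apply hns
    have hsC : Group.IsSolvable (⁅J₁, J₁⁆ : Subgroup H) := inferInstance
    have hn : ((⁅J₁, J₁⁆ : Subgroup H).subgroupOf J₁).Normal := hCn.subgroupOf J₁
    have : Group.IsSolvable ((⁅J₁, J₁⁆ : Subgroup H).subgroupOf J₁) :=
      Group.isSolvable_of_isSolvable_injective
        (f := (Subgroup.subgroupOfEquivOfLe hlt.le).toMonoidHom)
        (Subgroup.subgroupOfEquivOfLe hlt.le).injective
    have : Group.IsSolvable (J₁ ⧸ (⁅J₁, J₁⁆ : Subgroup H).subgroupOf J₁) := by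
      apply Group.isSolvable_of_comm
      intro a b
      induction a using QuotientGroup.induction_on with
      | H a =>
        induction b using QuotientGroup.induction_on with
        | H b =>
          rw [← QuotientGroup.mk_mul, ← QuotientGroup.mk_mul, QuotientGroup.eq,
            Subgroup.mem_subgroupOf]
          have h := Subgroup.commutator_mem_commutator (J₁.inv_mem b.2) (J₁.inv_mem a.2)
          rw [commutatorElement_def] at h
          simpa [mul_assoc] using h
    exact Group.isSolvable_of_ker_le_range ((⁅J₁, J₁⁆ : Subgroup H).subgroupOf J₁).subtype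
      (QuotientGroup.mk' ((⁅J₁, J₁⁆ : Subgroup H).subgroupOf J₁)) (by simp)
  have hbot : (⊥ : Subgroup H) < J₁ := by
    rw [bot_lt_iff_ne_bot]
    intro h
    apply hJ₁nn
    rw [h]; infer_instance
  obtain ⟨B₁, ⟨hB₁n, hB₁J⟩, hmax⟩ := (Set.toFinite {A : Subgroup H | A.Normal ∧ A < J₁}).exists_maximal
    ⟨⊥, inferInstance, hbot⟩
  have hB₁nil := hmin' B₁ hB₁n hB₁J
  refine ⟨J₁, B₁, hJ₁n, hB₁n, hB₁J, hJ₁J, hperf, ?_, ?_⟩
  · -- every `s`-element of `B₁` is centralised by `J₁`
    have key : ∀ s : ℕ, s.Prime → ∀ x ∈ B₁, ∀ k : ℕ, x ^ s ^ k = 1 →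
        ∀ y ∈ J₁, x * y = y * x := by
      intro s hs x hx k hk y hy
      obtain ⟨O, hOn, hOB, hOp, hO⟩ := exists_O hB₁n hB₁nil hs
      have hC := centr_normal hJ₁n hOn
      have hcop : ∀ z ∈ J₁, ∀ m : ℕ, Nat.Coprime m s → z ^ m = 1 →
          z ∈ J₁ ⊓ Subgroup.centralizer (O : Set H) := by
        intro z hz m hm hzm
        refine Subgroup.mem_inf.2 ⟨hz, ?_⟩
        rw [Subgroup.mem_centralizer_iff]
        intro o ho
        have h1 := coprime_centralises hyp₁ hs (Nat.card O) O rfl hOn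
          (hOB.trans hB₁J.le) hOp z hz m hm hzm o ho
        calc o * z = (z * o * z⁻¹) * z := by rw [h1]
          _ = z * o := by group
      have hEq : J₁ ⊓ Subgroup.centralizer (O : Set H) = J₁ := by
        by_contra hne
        have hlt : J₁ ⊓ Subgroup.centralizer (O : Set H) < J₁ := lt_of_le_of_ne inf_le_left hne
        have := hmin' _ hC hlt
        apply hns
        refine solvable_of_pow hC hlt.le inferInstance hs ?_
        intro z hz
        have hn0 : orderOf z ≠ 0 := (orderOf_pos z).ne'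
        refine ⟨(orderOf z).factorization s, hcop _ (J₁.pow_mem hz _)
          (ordCompl[s] (orderOf z)) (Nat.coprime_ordCompl hs hn0).symm ?_⟩
        rw [← pow_mul, Nat.ordProj_mul_ordCompl_eq_self, pow_orderOf_eq_one]
      have hy' : y ∈ J₁ ⊓ Subgroup.centralizer (O : Set H) := by rw [hEq]; exact hy
      exact Subgroup.mem_centralizer_iff.1 hy'.2 x (hO x hx k hk)
    have hCn : (Subgroup.centralizer (J₁ : Set H)).Normal := by
      have h := centr_normal (J := (⊤ : Subgroup H)) (O := J₁) inferInstance hJ₁n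
      rwa [top_inf_eq] at h
    intro x hx y hy
    have hxC : x ∈ Subgroup.centralizer (J₁ : Set H) := by
      rw [← QuotientGroup.eq_one_iff (N := Subgroup.centralizer (J₁ : Set H)), ← orderOf_eq_one_iff]
      by_contra hne
      obtain ⟨s, hs, hsd⟩ := Nat.exists_prime_and_dvd hne
      have hn0 : orderOf x ≠ 0 := (orderOf_pos x).ne'
      have h1 : orderOf ((x : H) : H ⧸ Subgroup.centralizer (J₁ : Set H)) ∣
          ordCompl[s] (orderOf x) := by
        apply orderOf_dvd_of_pow_eq_one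
        rw [← QuotientGroup.mk_pow, QuotientGroup.eq_one_iff, Subgroup.mem_centralizer_iff]
        intro z hz
        refine (key s hs _ (B₁.pow_mem hx _) ((orderOf x).factorization s) ?_ z hz).symm
        rw [← pow_mul, mul_comm, Nat.ordProj_mul_ordCompl_eq_self, pow_orderOf_eq_one]
      exact Nat.not_dvd_ordCompl hs hn0 (hsd.trans h1)
    exact (Subgroup.mem_centralizer_iff.1 hxC y hy).symm
  · intro M hM h1 h2
    rcases eq_or_lt_of_le h2 with h | h
    · exact Or.inr h
    · exact Or.inl (le_antisymm (hmax ⟨hM, h⟩ h1) h1)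

end

theorem pf_jn : T_I3b -> T_JN := by
  intro hI H _ _ J hJ hyp
  by_cases h : Group.IsNilpotent J
  · exact Or.inl h
  · exact Or.inr (main hI hJ hyp h)

end Pool.Agent.H5.NZ.JN
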