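import Pool.Agent.H11.NZ.Targets

set_option autoImplicit false

namespace Pool.Agent.H5.NZ.QPA

open Pool.Agent.H11.NY Pool.Agent.H11.NZ

section

variable {L K V : Type} [Group L] [Field K] [AddCommGroup V] [Module K V]
  (ρ : L →* Module.End K V)

theorem rho_inv (y : L) (v : V) : ρ y⁻¹ (ρ y v) = v := by
  rw [← Module.End.mul_apply, ← map_mul, inv_mul_cancel, map_one, Module.End.one_apply]

theorem rho_inv' (y : L) (v : V) : ρ y (ρ y⁻¹ v) = v := by
  rw [← Module.End.mul_apply, ← map_mul, mul_inv_cancel, map_one, Module.End.one_apply]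

theorem rho_inj (y : L) : Function.Injective (ρ y) := by
  intro a b h
  have := congrArg (ρ y⁻¹) h
  rwa [rho_inv, rho_inv] at this

/-- translate of a subspace -/
def tr (y : L) (U : Submodule K V) : Submodule K V := U.map (ρ y)

theorem tr_one (U : Submodule K V) : tr ρ 1 U = U := by
  unfold tr
  rw [map_one]
  exact Submodule.map_id U

theorem tr_mul (y z : L) (U : Submodule K V) : tr ρ (y * z) U = tr ρ y (tr ρ z U) := by
  unfold tr
  rw [map_mul]
  exact Submodule.map_comp (ρ z) (ρ y) U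

theorem tr_inv (y : L) (U : Submodule K V) : tr ρ y⁻¹ (tr ρ y U) = U := by
  rw [← tr_mul, inv_mul_cancel, tr_one]

theorem tr_inv' (y : L) (U : Submodule K V) : tr ρ y (tr ρ y⁻¹ U) = U := by
  rw [← tr_mul, mul_inv_cancel, tr_one]

theorem tr_mono (y : L) {U W : Submodule K V} (h : U ≤ W) : tr ρ y U ≤ tr ρ y W :=
  Submodule.map_mono h

theorem map_bot_of {U : Submodule K V} {A : Submodule K U} (h : A.map U.subtype = ⊥) : A = ⊥ := by
  apply Submodule.map_injective_of_injective U.subtype_injective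
  rw [h, Submodule.map_bot]

theorem tr_bot (y : L) : tr ρ y ⊥ = ⊥ := Submodule.map_bot _

theorem tr_eq_bot {y : L} {U : Submodule K V} (h : tr ρ y U = ⊥) : U = ⊥ := by
  rw [← tr_inv ρ y U, h, tr_bot]

theorem mem_tr {y : L} {U : Submodule K V} {v : V} (h : v ∈ U) : ρ y v ∈ tr ρ y U :=
  Submodule.mem_map_of_mem h

/-- the set of translates -/
def orb (U : Submodule K V) : Set (Submodule K V) := Set.range fun y : L => tr ρ y U

theorem tr_mem_orb {U : Submodule K V} (y : L) {S : Submodule K V} (h : S ∈ orb ρ U) :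
    tr ρ y S ∈ orb ρ U := by
  obtain ⟨z, rfl⟩ := h
  exact ⟨y * z, tr_mul ρ y z U⟩

theorem self_mem_orb (U : Submodule K V) : U ∈ orb ρ U := ⟨1, tr_one ρ U⟩

theorem sSup_orb (hρ : Irr ρ) {U : Submodule K V} (hU : U ≠ ⊥) : sSup (orb ρ U) = ⊤ := by
  have h := hρ.2 (sSup (orb ρ U)) ?_
  · rcases h with h | h
    · exfalso
      apply hU
      rw [eq_bot_iff, ← h]
      exact le_sSup (self_mem_orb ρ U)
    · exact h
  · intro y w hw
    have h1 : sSup (orb ρ U) ≤ Submodule.comap (ρ y) (sSup (orb ρ U)) := by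
      apply sSup_le
      intro S hS v hv
      exact (le_sSup (tr_mem_orb ρ y hS)) (mem_tr ρ hv)
    exact h1 hw

theorem mod_aux {A P S T : Submodule K V} (hA : A ≤ S) (hP : P ≤ S) (h1 : A ⊓ P = ⊥)
    (h2 : S ⊓ T = ⊥) : A ⊓ (P ⊔ T) = ⊥ := by
  have h3 : (P ⊔ T) ⊓ S = P ⊔ T ⊓ S := sup_inf_assoc_of_le T hP
  have h4 : A ⊓ (P ⊔ T) ≤ (P ⊔ T) ⊓ S := le_inf inf_le_right (inf_le_left.trans hA)
  rw [h3, inf_comm T S, h2, sup_bot_eq] at h4
  rw [eq_bot_iff, ← h1]
  exact le_inf inf_le_left h4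

/-- a block -/
def Bl (U : Submodule K V) : Prop := U ≠ ⊥ ∧ sSupIndep (orb ρ U)

theorem bl_top (hρ : Irr ρ) : Bl ρ (⊤ : Submodule K V) := by
  obtain ⟨v, hv⟩ := hρ.1
  have htop : ∀ y : L, tr ρ y (⊤ : Submodule K V) = ⊤ := by
    intro y
    rw [eq_top_iff]
    intro w _
    exact ⟨ρ y⁻¹ w, trivial, rho_inv' ρ y w⟩
  refine ⟨?_, ?_⟩
  · intro h
    apply hv
    have : v ∈ (⊤ : Submodule K V) := trivial
    rw [h] at this
    exact (Submodule.mem_bot K).1 this
  · have : orb ρ (⊤ : Submodule K V) = {⊤} := by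
      ext S
      constructor
      · rintro ⟨y, rfl⟩
        exact htop y
      · rintro rfl
        exact self_mem_orb ρ ⊤
    rw [this]
    exact sSupIndep_singleton _

/-- `L` acts on the translates -/
@[reducible] def act (U : Submodule K V) : MulAction L (orb ρ U) where
  smul y S := ⟨tr ρ y S.1, tr_mem_orb ρ y S.2⟩
  one_smul S := Subtype.ext (tr_one ρ S.1)
  mul_smul y z S := Subtype.ext (tr_mul ρ y z S.1)

theorem sys_of_bl (hρ : Irr ρ) {U : Submodule K V} (hU : Bl ρ U) :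
    letI := act ρ U
    Sys ρ (fun S : orb ρ U => S.1) := by
  letI := act ρ U
  refine ⟨(sSupIndep_iff _).1 hU.2, ?_, ?_, ?_, ?_⟩
  · rw [← sSup_eq_iSup']
    exact sSup_orb ρ hρ hU.1
  · intro y S w hw
    exact mem_tr ρ hw
  · rintro ⟨S, y, rfl⟩ h
    exact hU.1 (tr_eq_bot ρ h)
  · constructor
    rintro ⟨S, y, rfl⟩ ⟨T, z, rfl⟩
    refine ⟨z * y⁻¹, ?_⟩
    apply Subtype.ext
    change tr ρ (z * y⁻¹) (tr ρ y U) = tr ρ z U
    rw [tr_mul, tr_inv]

/-- the restricted representation -/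
def res (U : Submodule K V) :
    letI := act ρ U
    MulAction.stabilizer L (⟨U, self_mem_orb ρ U⟩ : orb ρ U) →* Module.End K U :=
  letI := act ρ U
  { toFun := fun y => (ρ (y : L)).restrict (p := U) (q := U) (by
      intro v hv
      have h : tr ρ (y : L) U = U := congrArg Subtype.val (MulAction.mem_stabilizer_iff.1 y.2)
      have h2 := mem_tr ρ (y := (y : L)) hv
      rwa [h] at h2)
    map_one' := by
      ext v
      change ρ ((1 : L)) (v : V) = v
      rw [map_one]; rfl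
    map_mul' := by
      intro y z
      ext v
      change ρ ((y : L) * (z : L)) (v : V) = ρ (y : L) (ρ (z : L) (v : V))
      rw [map_mul]; rfl }

theorem res_apply (U : Submodule K V) :
    letI := act ρ U
    ∀ (y : MulAction.stabilizer L (⟨U, self_mem_orb ρ U⟩ : orb ρ U)) (v : U),
      (res ρ U y v : V) = ρ (y : L) (v : V) := by
  intro y v
  rfl

theorem irr_res (hρ : Irr ρ) {U : Submodule K V} (hU : Bl ρ U) : Irr (res ρ U) := by
  letI := act ρ U
  constructor
  · obtain ⟨v, hv, hv0⟩ := Submodule.exists_mem_ne_zero_of_ne_bot hU.1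
    exact ⟨⟨v, hv⟩, fun h => hv0 (congrArg Subtype.val h)⟩
  · intro U' hinv
    by_cases hbot : U' = ⊥
    · exact Or.inl hbot
    right
    set U1 : Submodule K V := U'.map U.subtype with hU1
    have hU1le : U1 ≤ U := by
      rintro _ ⟨u, _, rfl⟩
      exact u.2
    have hU1ne : U1 ≠ ⊥ := by
      intro h
      apply hbot
      rw [hU1] at h
      exact map_bot_of h
    have htop := sSup_orb ρ hρ hU1ne
    set T : Submodule K V := sSup (orb ρ U \ {U}) with hT
    have hdis : Disjoint U T := hU.2 (self_mem_orb ρ U)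
    have hle : sSup (orb ρ U1) ≤ U1 ⊔ T := by
      apply sSup_le
      rintro _ ⟨y, rfl⟩
      by_cases hy : tr ρ y U = U
      · refine le_trans ?_ le_sup_left
        rintro _ ⟨_, ⟨u, hu, rfl⟩, rfl⟩
        have hmem : y ∈ MulAction.stabilizer L (⟨U, self_mem_orb ρ U⟩ : orb ρ U) :=
          MulAction.mem_stabilizer_iff.2 (Subtype.ext hy)
        exact ⟨res ρ U ⟨y, hmem⟩ u, hinv ⟨y, hmem⟩ u hu, rfl⟩
      · refine le_trans (tr_mono ρ y hU1le) (le_trans ?_ le_sup_right)
        exact le_sSup ⟨⟨y, rfl⟩, hy⟩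
    rw [htop] at hle
    have h3 : (U1 ⊔ T) ⊓ U = U1 ⊔ T ⊓ U := sup_inf_assoc_of_le T hU1le
    have h4 : T ⊓ U = ⊥ := by rw [inf_comm]; exact hdis.eq_bot
    rw [h4, sup_bot_eq, top_le_iff.1 hle, top_inf_eq] at h3
    rw [eq_top_iff]
    intro u _
    have hu : (u : V) ∈ U1 := by rw [← h3]; exact u.2
    obtain ⟨u', hu', h5⟩ := hu
    have : u' = u := Subtype.ext h5
    rwa [← this]

theorem refine_bl (hρ : Irr ρ) {U : Submodule K V} (hU : Bl ρ U) :
    letI := act ρ U
    ∀ (Λ' : Type) [MulAction (MulAction.stabilizer L (⟨U, self_mem_orb ρ U⟩ : orb ρ U)) Λ']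
      (W' : Λ' → Submodule K U), Sys (res ρ U) W' → ∀ k : Λ', Bl ρ ((W' k).map U.subtype) := by
  letI := act ρ U
  intro Λ' _ W' hW' k
  obtain ⟨hind, hsup, hmap, hne, htr⟩ := hW'
  have hle : ∀ k, (W' k).map U.subtype ≤ U := by
    rintro k _ ⟨u, _, rfl⟩
    exact u.2
  have hstab : ∀ y : L, tr ρ y U = U →
      y ∈ MulAction.stabilizer L (⟨U, self_mem_orb ρ U⟩ : orb ρ U) :=
    fun y hy => MulAction.mem_stabilizer_iff.2 (Subtype.ext hy)
  -- the stabiliser permutes the subspaces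
  have hperm : ∀ (y : L) (hy : tr ρ y U = U) (k : Λ'), tr ρ y ((W' k).map U.subtype) =
      (W' ((⟨y, hstab y hy⟩ : MulAction.stabilizer L (⟨U, self_mem_orb ρ U⟩ : orb ρ U)) • k)).map
        U.subtype := by
    have hone : ∀ (y : L) (hy : tr ρ y U = U) (k : Λ'), tr ρ y ((W' k).map U.subtype) ≤
      (W' ((⟨y, hstab y hy⟩ : MulAction.stabilizer L (⟨U, self_mem_orb ρ U⟩ : orb ρ U)) • k)).map
        U.subtype := by
      rintro y hy k _ ⟨_, ⟨u, hu, rfl⟩, rfl⟩
      exact ⟨res ρ U ⟨y, hstab y hy⟩ u, hmap _ _ u hu, rfl⟩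
    intro y hy k
    refine le_antisymm (hone y hy k) ?_
    have hy' : tr ρ y⁻¹ U = U := by
      conv_lhs => rw [← hy]
      exact tr_inv ρ y U
    have h1 := hone y⁻¹ hy' ((⟨y, hstab y hy⟩ :
      MulAction.stabilizer L (⟨U, self_mem_orb ρ U⟩ : orb ρ U)) • k)
    have h2 : (⟨y⁻¹, hstab y⁻¹ hy'⟩ :
        MulAction.stabilizer L (⟨U, self_mem_orb ρ U⟩ : orb ρ U)) •
        ((⟨y, hstab y hy⟩ : MulAction.stabilizer L (⟨U, self_mem_orb ρ U⟩ : orb ρ U)) • k) =
        k := by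
      rw [← mul_smul]
      have : (⟨y⁻¹, hstab y⁻¹ hy'⟩ :
        MulAction.stabilizer L (⟨U, self_mem_orb ρ U⟩ : orb ρ U)) *
        (⟨y, hstab y hy⟩ : MulAction.stabilizer L (⟨U, self_mem_orb ρ U⟩ : orb ρ U)) = 1 :=
        Subtype.ext (inv_mul_cancel y)
      rw [this, one_smul]
    rw [h2] at h1
    have h3 := tr_mono ρ y h1
    rwa [tr_inv'] at h3
  refine ⟨?_, ?_⟩
  · intro h
    exact hne k (map_bot_of h)
  · rintro A ⟨y, rfl⟩
    rw [disjoint_iff]
    set P : Submodule K V := tr ρ y ((⨆ j, ⨆ (_ : j ≠ k), W' j).map U.subtype) with hP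
    set T : Submodule K V := sSup (orb ρ U \ {tr ρ y U}) with hT
    have hPU : P ≤ tr ρ y U := by
      apply tr_mono
      rintro _ ⟨u, _, rfl⟩
      exact u.2
    have hAP : tr ρ y ((W' k).map U.subtype) ⊓ P = ⊥ := by
      rw [hP]
      unfold tr
      rw [← Submodule.map_inf _ (rho_inj ρ y), ← Submodule.map_inf _ U.subtype_injective,
        (hind k).eq_bot, Submodule.map_bot, Submodule.map_bot]
    have hST : tr ρ y U ⊓ T = ⊥ := (hU.2 (tr_mem_orb ρ y (self_mem_orb ρ U))).eq_bot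
    have hmain := mod_aux (tr_mono ρ y (hle k)) hPU hAP hST
    rw [eq_bot_iff, ← hmain]
    refine inf_le_inf_left _ ?_
    apply sSup_le
    rintro _ ⟨⟨z, rfl⟩, hne2⟩
    by_cases hz : tr ρ z U = tr ρ y U
    · refine le_trans ?_ le_sup_left
      have hyz : tr ρ (y⁻¹ * z) U = U := by rw [tr_mul, hz, tr_inv]
      have h1 := hperm (y⁻¹ * z) hyz k
      have h2 : tr ρ z ((W' k).map U.subtype) =
          tr ρ y (tr ρ (y⁻¹ * z) ((W' k).map U.subtype)) := by
        rw [← tr_mul, mul_inv_cancel_left]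
      change tr ρ z ((W' k).map U.subtype) ≤ P
      rw [h2, h1, hP]
      apply tr_mono
      apply Submodule.map_mono
      refine le_iSup₂_of_le _ ?_ le_rfl
      intro hk
      apply hne2
      rw [Set.mem_singleton_iff]
      change tr ρ z ((W' k).map U.subtype) = tr ρ y ((W' k).map U.subtype)
      rw [h2, h1, hk]
    · refine le_trans (tr_mono ρ z (hle k)) (le_trans ?_ le_sup_right)
      exact le_sSup ⟨⟨z, rfl⟩, hz⟩

end

theorem pf_qpa : T_QPA := by
  classical
  intro L K V _ _ _ _ _ _ ρ hρ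
  -- a block of minimal dimension
  have hex : ∃ n : ℕ, ∃ U : Submodule K V, Bl ρ U ∧ Module.finrank K U = n :=
    ⟨_, ⊤, bl_top ρ hρ, rfl⟩
  obtain ⟨U, hU, hUn⟩ := Nat.find_spec hex
  have hmin : ∀ U' : Submodule K V, Bl ρ U' → Module.finrank K U ≤ Module.finrank K U' := by
    intro U' hU'
    rw [hUn]
    exact Nat.find_min' hex ⟨U', hU', rfl⟩
  letI := act ρ U
  have : Finite (orb ρ U) := Set.finite_range _
  refine ⟨orb ρ U, Fintype.ofFinite _, inferInstance, act ρ U, fun S => S.1,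
    ⟨U, self_mem_orb ρ U⟩, res ρ U, sys_of_bl ρ hρ hU, res_apply ρ U, irr_res ρ hρ hU, ?_⟩
  intro Λ' _ _ W' hW'
  constructor
  intro k k'
  by_contra hkk
  have hbl := refine_bl ρ hρ hU Λ' W' hW' k
  have h1 := hmin _ hbl
  have h2 : W' k < ⊤ := by
    rw [lt_top_iff_ne_top]
    intro h
    have h3 := hW'.1.pairwiseDisjoint hkk
    have h4 : Disjoint (W' k) (W' k') := h3
    rw [h, top_disjoint] at h4
    exact hW'.2.2.2.1 k' h4
  have h5 : Module.finrank K ((W' k).map U.subtype) = Module.finrank K (W' k) :=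
    Submodule.finrank_map_subtype_eq U (W' k)
  have h6 : Module.finrank K (W' k) < Module.finrank K U := Submodule.finrank_lt h2.ne
  omega

end Pool.Agent.H5.NZ.QPA
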